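import Pool.Agent.H21.GH.Zeta

/-!
# Zeta functions, higher Chow groups and graph hypersurfaces

For a finite simple graph `G` with the vertices `1, …, n` let `Ĝ` be the cone over `G`: the graph with
one more vertex, which is joined to all vertices of `G`. Let `x_v` be the variable of the edge between
`v` and the new vertex, and `x_e` the variable of the edge `e` of `G`. The polynomial `kir ℤ G` is the
determinant of the reduced Laplacian of `Ĝ`,

  `L_vv = x_v + ∑_{e ∋ v} x_e`, `L_vw = - x_e` for an edge `e = {v, w}`, and `L_vw = 0` otherwise,

so (theorem of Kirchhoff) it is the sum of the products `∏_{e ∈ T} x_e` over the spanning trees `T` of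
`Ĝ`, and `X_G = kirS ℤ G` is the graph hypersurface `kir ℤ G = 0` in the affine space of the edges over
`ℤ`. Up to a linear change of coordinates its complement is the space of the invertible symmetric
matrices whose entries at the places of the non-adjacent pairs of vertices of `G` are zero.

**Theorem.**
* Question Q1: the zeta functions of all schemes of finite type over `ℤ` extend to meromorphic
  functions on `ℂ` if and only if the zeta functions of all graph hypersurfaces `X_G` do. Nothing is
  assumed; the zeta functions are the Euler products over the closed points.
* Questions Q1 and Q2: the conjecture of Bloch and Soulé (`Formula`: meromorphic continuation of the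
  zeta function, finiteness of the ranks of the higher Chow groups, vanishing of almost all of them,
  and the formula for the orders of the zeta function at all integers as Euler characteristics of these
  ranks) is true for all (separated, if `sep`) schemes of finite type over `ℤ` if and only if it is true
  for all graph hypersurfaces `X_G`. The higher Chow groups are given by their known properties
  (`IsHigherChow`: localisation, affine bundles, `X × 𝔾_m`, dimension, and the formula for `Spec ℤ`).

The geometric theorem behind it is `Pool.Agent.H21.GH.universal`.
-/

set_option autoImplicit false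

open CategoryTheory AlgebraicGeometry Pool.Agent.Y116.UV Pool.Agent.Y111.HR Pool.Agent.H21.GH

namespace Pool.Agent.Results.MP_666bea_ag.GraphHypersurfaces

/-- **The conjectures of Bloch and Soulé and graph hypersurfaces.** See the explanations above. -/
theorem result :
    ((∀ (X : Scheme.{0}) (f : X ⟶ Spec (CommRingCat.of ℤ)),
        LocallyOfFiniteType f → QuasiCompact f → HasMeroZeta X) ↔
      ∀ (n : ℕ) (G : SimpleGraph (Fin n)), HasMeroZeta (Spec (CommRingCat.of
        (MvPolynomial (Fin n ⊕ G.edgeSet) ℤ ⧸ Ideal.span {kir ℤ G})))) ∧
    ∀ (sep : Prop) (T : HigherChow), IsHigherChow sep T →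
      ((∀ X : Sch ℤ, FT sep X → Formula T X) ↔
        ∀ (n : ℕ) (G : SimpleGraph (Fin n)), Formula T (kirS ℤ G)) := by
  refine ⟨⟨fun h n G => ?_, fun h X f hf hf' => ?_⟩, fun sep T hT => ⟨fun h n G => ?_, fun h => ?_⟩⟩
  · have h1 : FT False (kirS ℤ G) := ft_kirS G False
    exact h _ (kirS ℤ G).hom h1.locallyOfFiniteType h1.quasiCompact
  · exact zm_kir (fun n G => h n G) (Over.mk f) ⟨hf, hf', False.elim⟩
  · exact h _ (ft_kirS G sep)
  · exact formula_kir hT h

end Pool.Agent.Results.MP_666bea_ag.GraphHypersurfaces
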